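import Pool.Agent.R153.GP2

/-!
# Uniform distant patterns `12...m` and `12...(m-2)m(m-1)` (MP_47869a, Q1)
-/

namespace Pool.Agent.Results.MP_47869a_co.UniformDistant

open Pool.Agent.R153.GP

/-- The permutation `π` of `[n]` contains the uniform distant pattern `dist_r(q)`, where the pattern
`q` of size `m` is given by its values: there are positions `i 0, i 1, ..., i (m-1)`, each at least
`r + 1` larger than the preceding one, whose entries are in the same relative order as `q`. -/
def Contains {n m : ℕ} (r : ℕ) (q : Fin m → ℕ) (π : Equiv.Perm (Fin n)) : Prop :=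
  ∃ i : Fin m → Fin n, (∀ a b : Fin m, (b : ℕ) = a + 1 → (i a : ℕ) + (r + 1) ≤ i b) ∧
    ∀ a b, π (i a) < π (i b) ↔ q a < q b

/-- The number of permutations of `[n]` avoiding `dist_r(q)`. -/
noncomputable def av (n r : ℕ) {m : ℕ} (q : Fin m → ℕ) : ℕ :=
  Nat.card {π : Equiv.Perm (Fin n) // ¬ Contains r q π}

/-- The pattern `12...m`, with values `0, ..., m-1`. -/
def iota (m : ℕ) : Fin m → ℕ := fun a => a

/-- The pattern `12...(m-2) m (m-1)`, with values `0, ..., m-1`. -/
def tau (m : ℕ) : Fin m → ℕ := fun a =>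
  if (a : ℕ) + 2 = m then m - 1 else if (a : ℕ) + 1 = m then m - 2 else a

/-- The pattern `12 ⊕ σ`. -/
def pre12 {s : ℕ} (σ : Fin s → ℕ) : Fin (s + 2) → ℕ :=
  Fin.cons 0 (Fin.cons 1 (fun j => 2 + σ j) : Fin (s + 1) → ℕ)

/-- The pattern `21 ⊕ σ`. -/
def pre21 {s : ℕ} (σ : Fin s → ℕ) : Fin (s + 2) → ℕ :=
  Fin.cons 1 (Fin.cons 0 (fun j => 2 + σ j) : Fin (s + 1) → ℕ)

/-- gap condition -/
def Q {n s : ℕ} (r : ℕ) (a : Fin s → Fin n) : Prop :=
  ∀ j j' : Fin s, (j' : ℕ) = j + 1 → (a j : ℕ) + (r + 1) ≤ a j'

theorem gap_all {n m : ℕ} {r : ℕ} {i : Fin m → Fin n}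
    (h : ∀ a b : Fin m, (b : ℕ) = a + 1 → (i a : ℕ) + (r + 1) ≤ i b) :
    ∀ d : ℕ, ∀ a b : Fin m, (b : ℕ) = a + 1 + d → (i a : ℕ) + (r + 1) ≤ i b := by
  intro d
  induction d with
  | zero => exact fun a b hab => h a b hab
  | succ d ih =>
    intro a b hab
    have h1 := ih a ⟨b - 1, by omega⟩ (by simp only; omega)
    have h2 := h ⟨b - 1, by omega⟩ b (by simp only; omega)
    omega

theorem fwd {n s : ℕ} {r : ℕ} {σ : Fin s → ℕ} {q : Fin (s + 2) → ℕ} {π : Equiv.Perm (Fin n)}
    (hq : ∀ j : Fin s, q j.succ.succ = 2 + σ j) (h0 : q 0 < 2) (h1 : q 1 < 2)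
    (h : Contains r q π) : ∃ x y : Fin n, (x : ℕ) + r < y ∧ (π x < π y ↔ q 0 < q 1) ∧
      (π y < π x ↔ q 1 < q 0) ∧ D σ (Q r) r π y (π x) ∧ D σ (Q r) r π y (π y) := by
  obtain ⟨i, hi, ho⟩ := h
  have hg := gap_all hi
  have hD : ∀ t : Fin (s + 2), q t < 2 → D σ (Q r) r π (i 1) (π (i t)) := by
    intro t ht
    refine ⟨fun j => i j.succ.succ, fun j => ?_, fun j j' hj => ?_, fun j => ?_, fun j j' => ?_⟩
    · have := hg j 1 j.succ.succ (by simp [Fin.val_succ]; omega)
      simp only
      omega
    · exact hi _ _ (by simp [Fin.val_succ, hj])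
    · rw [ho, hq]
      omega
    · simp only
      rw [ho, hq, hq]
      omega
  refine ⟨i 0, i 1, ?_, ho 0 1, ho 1 0, hD 0 h0, hD 1 h1⟩
  have := hi 0 1 (by simp)
  omega

theorem bwd {n s : ℕ} {r : ℕ} {σ : Fin s → ℕ} {q : Fin (s + 2) → ℕ} {π : Equiv.Perm (Fin n)}
    (hq : ∀ j : Fin s, q j.succ.succ = 2 + σ j) (h0 : q 0 < 2) (h1 : q 1 < 2)
    {x y : Fin n} (hxy : (x : ℕ) + r < y) (h01 : π x < π y ↔ q 0 < q 1)
    (h10 : π y < π x ↔ q 1 < q 0) {v : Fin n} (hx : π x ≤ v) (hy : π y ≤ v)
    (hD : D σ (Q r) r π y v) : Contains r q π := by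
  obtain ⟨a, a1, a2, a3, a4⟩ := hD
  refine ⟨Fin.cons x (Fin.cons y a : Fin (s + 1) → Fin n), ?_, ?_⟩
  · intro b c hbc
    induction b using Fin.cases with
    | zero =>
      induction c using Fin.cases with
      | zero => simp at hbc
      | succ c =>
        induction c using Fin.cases with
        | zero =>
          simp only [Fin.cons_zero, Fin.cons_succ]
          omega
        | succ c => simp [Fin.val_succ] at hbc
    | succ b =>
      induction c using Fin.cases with
      | zero => simp at hbc
      | succ c =>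
        induction b using Fin.cases with
        | zero =>
          induction c using Fin.cases with
          | zero => simp at hbc
          | succ c =>
            simp only [Fin.cons_zero, Fin.cons_succ]
            have := a1 c
            omega
        | succ b =>
          induction c using Fin.cases with
          | zero => simp [Fin.val_succ] at hbc
          | succ c =>
            simp only [Fin.cons_succ]
            exact a2 b c (by simpa [Fin.val_succ] using hbc)
  · have e0 : (Fin.cons x (Fin.cons y a : Fin (s + 1) → Fin n) : Fin (s + 2) → Fin n) 0 = x :=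
      Fin.cons_zero _ _
    have e1 : (Fin.cons x (Fin.cons y a : Fin (s + 1) → Fin n) : Fin (s + 2) → Fin n)
        (Fin.succ 0) = y := by
      rw [Fin.cons_succ, Fin.cons_zero]
    have e2 : ∀ j : Fin s, (Fin.cons x (Fin.cons y a : Fin (s + 1) → Fin n) :
        Fin (s + 2) → Fin n) j.succ.succ = a j := by
      intro j
      rw [Fin.cons_succ, Fin.cons_succ]
    have q1 : q (Fin.succ 0) = q 1 := rfl
    intro b c
    induction b using Fin.cases with
    | zero =>
      induction c using Fin.cases with
      | zero => simp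
      | succ c =>
        induction c using Fin.cases with
        | zero => rw [e0, e1, q1]; exact h01
        | succ c =>
          rw [e0, e2, hq]
          have := lt_of_le_of_lt hx (a3 c)
          constructor
          · intro _; omega
          · intro _; exact this
    | succ b =>
      induction b using Fin.cases with
      | zero =>
        induction c using Fin.cases with
        | zero => rw [e0, e1, q1]; exact h10
        | succ c =>
          induction c using Fin.cases with
          | zero => rw [e1]; simp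
          | succ c =>
            rw [e1, e2, hq, q1]
            have := lt_of_le_of_lt hy (a3 c)
            constructor
            · intro _; omega
            · intro _; exact this
      | succ b =>
        induction c using Fin.cases with
        | zero =>
          rw [e0, e2, hq]
          have := lt_of_le_of_lt hx (a3 b)
          constructor
          · intro h'; exact absurd h' (not_lt.mpr this.le)
          · intro h'; omega
        | succ c =>
          induction c using Fin.cases with
          | zero =>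
            rw [e1, e2, hq, q1]
            have := lt_of_le_of_lt hy (a3 b)
            constructor
            · intro h'; exact absurd h' (not_lt.mpr this.le)
            · intro h'; omega
          | succ c =>
            rw [e2, e2, hq, hq, a4 b c]
            omega

theorem contains12 {n s : ℕ} (r : ℕ) (σ : Fin s → ℕ) (π : Equiv.Perm (Fin n)) :
    ¬ Contains r (pre12 σ) π ↔ V12 σ (Q r) r r π := by
  have hq : ∀ j : Fin s, pre12 σ j.succ.succ = 2 + σ j := by
    intro j
    unfold pre12
    rw [Fin.cons_succ, Fin.cons_succ]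
  have q0 : pre12 σ 0 = 0 := by
    unfold pre12
    rw [Fin.cons_zero]
  have q1 : pre12 σ 1 = 1 := by
    change pre12 σ (Fin.succ 0) = 1
    unfold pre12
    rw [Fin.cons_succ, Fin.cons_zero]
  constructor
  · intro h x y hxy hlt hD
    apply h
    refine bwd hq (by omega) (by omega) hxy ?_ ?_ hlt.le le_rfl hD
    · rw [q0, q1]
      simp [hlt]
    · rw [q0, q1]
      simp [hlt.le]
  · intro h hc
    obtain ⟨x, y, hxy, h01, -, -, hD⟩ := fwd hq (by omega) (by omega) hc
    exact h x y hxy (h01.mpr (by omega)) hD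

theorem contains21 {n s : ℕ} (r : ℕ) (σ : Fin s → ℕ) (π : Equiv.Perm (Fin n)) :
    ¬ Contains r (pre21 σ) π ↔ V21 σ (Q r) r r π := by
  have hq : ∀ j : Fin s, pre21 σ j.succ.succ = 2 + σ j := by
    intro j
    unfold pre21
    rw [Fin.cons_succ, Fin.cons_succ]
  have q0 : pre21 σ 0 = 1 := by
    unfold pre21
    rw [Fin.cons_zero]
  have q1 : pre21 σ 1 = 0 := by
    change pre21 σ (Fin.succ 0) = 0
    unfold pre21
    rw [Fin.cons_succ, Fin.cons_zero]
  constructor
  · intro h x y hxy hlt hD
    apply h
    refine bwd hq (by omega) (by omega) hxy ?_ ?_ le_rfl hlt.le hD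
    · rw [q0, q1]
      simp [hlt.le]
    · rw [q0, q1]
      simp [hlt]
  · intro h hc
    obtain ⟨x, y, hxy, -, h10, hD, -⟩ := fwd hq (by omega) (by omega) hc
    exact h x y hxy (h10.mpr (by omega)) hD

/-- The inequality for `21 ⊕ σ` and `12 ⊕ σ`. -/
theorem general (n r : ℕ) {s : ℕ} (σ : Fin s → ℕ) :
    av n r (pre21 σ) ≤ av n r (pre12 σ) := by
  have h := card_le (n := n) (τ := σ) (Q := Q r) (g := r) r
  unfold av
  simp only [contains12, contains21]
  exact h

/-- reverse-complement -/
def rc {n : ℕ} (w : Equiv.Perm (Fin n)) : Equiv.Perm (Fin n) := Fin.revPerm * w * Fin.revPerm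

theorem rc_rc {n : ℕ} (w : Equiv.Perm (Fin n)) : rc (rc w) = w := by
  unfold rc
  ext x
  simp

theorem rc_apply {n : ℕ} (w : Equiv.Perm (Fin n)) (x : Fin n) : rc w x.rev = (w x).rev := by
  unfold rc
  simp

theorem contains_rc {n m : ℕ} {r : ℕ} {q q' : Fin m → ℕ}
    (hq : ∀ a b, q b.rev < q a.rev ↔ q' a < q' b) {π : Equiv.Perm (Fin n)}
    (h : Contains r q π) : Contains r q' (rc π) := by
  obtain ⟨i, hi, ho⟩ := h
  refine ⟨fun t => (i t.rev).rev, fun a b hab => ?_, fun a b => ?_⟩
  · have h1 := hi b.rev a.rev (by rw [Fin.val_rev, Fin.val_rev]; omega)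
    simp only [Fin.val_rev]
    have h2 := (i a.rev).2
    omega
  · simp only
    rw [rc_apply, rc_apply, Fin.rev_lt_rev, ho]
    exact hq a b

theorem av_rc {n m : ℕ} (r : ℕ) {q q' : Fin m → ℕ}
    (hq : ∀ a b, q b.rev < q a.rev ↔ q' a < q' b) : av n r q = av n r q' := by
  have hq' : ∀ a b, q' b.rev < q' a.rev ↔ q a < q b := by
    intro a b
    have := hq b.rev a.rev
    rw [Fin.rev_rev, Fin.rev_rev] at this
    exact this.symm
  unfold av
  apply Nat.card_congr
  refine ⟨fun π => ⟨rc π.1, fun h => π.2 ?_⟩, fun π => ⟨rc π.1, fun h => π.2 ?_⟩, ?_, ?_⟩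
  · have := contains_rc hq' h
    rwa [rc_rc] at this
  · have := contains_rc hq h
    rwa [rc_rc] at this
  · intro π
    exact Subtype.ext (rc_rc π.1)
  · intro π
    exact Subtype.ext (rc_rc π.1)

theorem pre12_iota (s : ℕ) : pre12 (iota s) = iota (s + 2) := by
  funext t
  unfold pre12 iota
  induction t using Fin.cases with
  | zero => simp
  | succ t =>
    induction t using Fin.cases with
    | zero => simp
    | succ t => simp [Fin.val_succ]; omega

theorem pre21_iota (s : ℕ) (t : Fin (s + 2)) :
    pre21 (iota s) t = if (t : ℕ) = 0 then 1 else if (t : ℕ) = 1 then 0 else (t : ℕ) := by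
  unfold pre21 iota
  induction t using Fin.cases with
  | zero => simp
  | succ t =>
    induction t using Fin.cases with
    | zero => simp
    | succ t => simp [Fin.val_succ]; omega

theorem tau_rev (s : ℕ) (t : Fin (s + 2)) :
    tau (s + 2) t.rev + pre21 (iota s) t = s + 1 := by
  rw [pre21_iota]
  unfold tau
  rw [Fin.val_rev]
  have h2 := t.2
  generalize (t : ℕ) = k at h2 ⊢
  split_ifs <;> omega

/-- **Q1 of MP_47869a.** For every `m ≥ 3` (also `m = 2`), every `r` and every `n`,
`|Av_n(dist_r(12...m))| ≥ |Av_n(dist_r(12...(m-2)m(m-1)))|`; more generally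
`|Av_n(dist_r(12 ⊕ σ))| ≥ |Av_n(dist_r(21 ⊕ σ))|` for every pattern `σ`. -/
theorem result :
    (∀ m r n : ℕ, 2 ≤ m → av n r (tau m) ≤ av n r (iota m)) ∧
    (∀ (s : ℕ) (σ : Fin s → ℕ) (r n : ℕ), av n r (pre21 σ) ≤ av n r (pre12 σ)) := by
  refine ⟨?_, fun s σ r n => general n r σ⟩
  intro m r n hm
  obtain ⟨s, rfl⟩ := Nat.exists_eq_add_of_le' hm
  have h1 : av n r (tau (s + 2)) = av n r (pre21 (iota s)) := by
    apply av_rc
    intro a b
    have ha := tau_rev s a
    have hb := tau_rev s b
    omega
  have h2 := general n r (iota s)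
  rw [pre12_iota] at h2
  rw [h1]
  exact h2

end Pool.Agent.Results.MP_47869a_co.UniformDistant
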